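import Pool.Agent.D0H41.LF.Lower
import Pool.Agent.D0H41.LF.Upper

set_option autoImplicit false

namespace Pool.Agent.Results.MP_18f540_nt.HausdorffDimension

open Filter Topology Set
open scoped ENNReal

/-- The set `E(w)` of the problem: the pairs `(ξ, η) = (z 0, z 1)` for which there is `c > 0` such
that `|p ξ + q η + r| < c (max p q) ^ (-w)` for infinitely many integer triples `(p, q, r)` with
`p, q > 0`. -/
def E (w : ℝ) : Set (EuclideanSpace ℝ (Fin 2)) :=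
  {z | ∃ c : ℝ, 0 < c ∧ {t : ℤ × ℤ × ℤ | 0 < t.1 ∧ 0 < t.2.1 ∧
    |(t.1 : ℝ) * z 0 + (t.2.1 : ℝ) * z 1 + (t.2.2 : ℝ)| <
      c * (max (t.1 : ℝ) (t.2.1 : ℝ)) ^ (-w)}.Infinite}

/-- the coordinates `(η, ξ)` of `ℝ × ℝ` -/
noncomputable def φ : EuclideanSpace ℝ (Fin 2) ≃L[ℝ] ℝ × ℝ :=
  ((EuclideanSpace.equiv (Fin 2) ℝ).trans (ContinuousLinearEquiv.finTwoArrow ℝ ℝ)).trans
    (ContinuousLinearEquiv.prodComm ℝ ℝ ℝ)

theorem φ_apply (z : EuclideanSpace ℝ (Fin 2)) : φ z = (z 1, z 0) := rfl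

theorem image_E (w : ℝ) : φ '' E w = Pool.Agent.D0H41.LF.E' w := by
  ext y
  constructor
  · rintro ⟨z, hz, rfl⟩
    exact hz
  · intro hy
    refine ⟨φ.symm y, ?_, φ.apply_symm_apply y⟩
    have h : φ (φ.symm y) = y := φ.apply_symm_apply y
    rw [φ_apply] at h
    have h1 : (φ.symm y) 1 = y.1 := congrArg Prod.fst h
    have h0 : (φ.symm y) 0 = y.2 := congrArg Prod.snd h
    unfold E
    rw [mem_ofPred_eq, h0, h1]
    exact hy

theorem F_subset (w : ℝ) : Pool.Agent.D0H41.LF.F w ⊆ Pool.Agent.D0H41.LF.E' w := by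
  intro z hz
  refine ⟨1, one_pos, ?_⟩
  have hz' : ∃ᶠ n : ℕ in atTop, ∃ q : ℕ, 1 ≤ q ∧ q ≤ n ∧ ∃ r : ℤ,
    |(n : ℝ) * z.2 + q * z.1 + r| < (n : ℝ) ^ (-w) := hz
  rw [Nat.frequently_atTop_iff_infinite] at hz'
  apply Set.Infinite.of_image (fun t : ℤ × ℤ × ℤ => t.1.toNat)
  refine hz'.mono ?_
  rintro n ⟨q, h1, h2, r, hr⟩
  refine ⟨((n : ℤ), (q : ℤ), r), ⟨?_, ?_, ?_⟩, ?_⟩
  · show (0 : ℤ) < n
    omega
  · show (0 : ℤ) < q
    omega
  · simp only [Int.cast_natCast]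
    have h5 : max (n : ℝ) (q : ℝ) = n := max_eq_left (by exact_mod_cast h2)
    rw [h5, one_mul]
    exact hr
  · simp

/-- **The Hausdorff dimension of `E(w)`.** For every real `w > 2`, the Hausdorff dimension of the
set of pairs `(ξ, η)` for which `|p ξ + q η + r| < c (max p q) ^ (-w)` has, for some `c > 0`,
infinitely many solutions in integers with `p, q > 0`, is `1 + 3 / (w + 1)`. -/
theorem result (w : ℝ) (hw : 2 < w) : dimH (E w) = ENNReal.ofReal (1 + 3 / (w + 1)) := by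
  rw [← φ.dimH_image, image_E]
  apply le_antisymm
  · exact Pool.Agent.D0H41.LF.upper (by linarith)
  · exact (Pool.Agent.D0H41.LF.lower hw).trans (dimH_mono (F_subset w))

end Pool.Agent.Results.MP_18f540_nt.HausdorffDimension
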